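import Pool.Agent.Helper38.Weiss.Api
import Pool.Agent.Helper38.Weiss.Label

/-! W-H: separation numbers along a pair. -/

open Set Filter Topology MeasureTheory Pool.Agent.Helper38.Weiss

namespace Pool.Agent.Helper27.Weiss

/-- W-U -/
def UpgradeStmt (X : Type*) [MeasurableSpace X] : Prop :=
  ∀ (ν : Measure X) [IsProbabilityMeasure ν]
    (F : X → X), Ergodic F ν → ∀ {n : ℕ} (P : X → Fin n), Measurable P →
    ∀ (S S' : Set (X × X)),
    (∀ x y x' y', (x, y) ∈ S → P x = P x' → P y = P y' → (x', y') ∈ S') →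
    (∀ x, (x, x) ∉ S') → ∀ (L : ℕ), 0 < L → ∀ (η : ℝ), 0 < η →
    (ent (law ν F P L) / L ≤ hInf ν F P + η / 4) →
    ∃ δ > 0, ∀ b : ℝ, ∀ A : ℕ → Set X, (∀ T, MeasurableSet (A T)) →
      Tendsto (fun T => ν (A T)) atTop (𝓝 1) → ∃ T₀ : ℕ, ∀ T ≥ T₀,
        Leq (Typ P L (law ν F P L) δ b T) (pw S T) (A T) (Conf F S' T) (Real.exp (η * T))

/-- W-T, first part -/
def FamTypStmt (X : Type*) : Prop :=
  ∀ {n : ℕ} (P : X → Fin n) (L : ℕ) (q : (Fin L → Fin n) → ℝ),
    (∀ w, 0 ≤ q w) → (∑ w, q w = 1) → Fam (Typ P L q)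

theorem law_nonneg {X : Type*} [MeasurableSpace X] (ν : Measure X) (F : X → X) {n : ℕ}
    (P : X → Fin n) (L : ℕ) (w : Fin L → Fin n) : 0 ≤ law ν F P L w := ENNReal.toReal_nonneg

theorem sum_law {X : Type*} [MeasurableSpace X] (ν : Measure X) [IsProbabilityMeasure ν]
    {F : X → X} (hF : Measurable F) {n : ℕ} {P : X → Fin n} (hP : Measurable P) (L : ℕ) :
    ∑ w, law ν F P L w = 1 := by
  classical
  have hg : Measurable (fun x : X => fun s : Fin L => P (F^[s] x)) :=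
    measurable_pi_lambda _ fun s => hP.comp (hF.iterate s)
  have h1 : ∀ w : Fin L → Fin n, {x | ∀ s : Fin L, P (F^[s] x) = w s} =
      (fun x : X => fun s : Fin L => P (F^[s] x)) ⁻¹' {w} := by
    intro w
    ext x
    simp only [mem_ofPred_eq, mem_preimage, mem_singleton_iff, funext_iff]
  simp only [law, h1]
  rw [← ENNReal.toReal_sum (fun w _ => measure_ne_top _ _),
    sum_measure_preimage_singleton _ (fun w _ => hg (measurableSet_singleton w))]
  simp

/-- concatenation at time `m` -/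
def conc {X : Type*} (m : ℕ) (ξ ζ : ℕ → X) : ℕ → X := fun t => if t < m then ξ t else ζ (t - m)

theorem conc_lt {X : Type*} {m : ℕ} (ξ ζ : ℕ → X) {t : ℕ} (h : t < m) : conc m ξ ζ t = ξ t := by
  simp [conc, h]

theorem conc_add {X : Type*} {m : ℕ} (ξ ζ : ℕ → X) (t : ℕ) : conc m ξ ζ (m + t) = ζ t := by
  simp [conc]

/-- powers of a family of sequences -/
theorem exists_power {X : Type*} [Nonempty X] {Y : ℝ → ℝ → ℕ → Set (ℕ → X)} (hY : Fam Y)
    (S : Set (X × X)) (hS : ∀ x, (x, x) ∉ S) {δ : ℝ} (hδ : 0 ≤ δ) (T : ℕ)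
    (E : Finset (ℕ → X)) (hE : ∀ ξ ∈ E, ξ ∈ Y δ 0 T)
    (hE' : ∀ ξ ∈ E, ∀ ζ ∈ E, ξ ≠ ζ → pw S T ξ ζ) (k : ℕ) :
    ∃ E' : Finset (ℕ → X), (∀ ξ ∈ E', ξ ∈ Y δ 0 (k * T)) ∧
      (∀ ξ ∈ E', ∀ ζ ∈ E', ξ ≠ ζ → pw S (k * T) ξ ζ) ∧ E'.card = E.card ^ k := by
  classical
  induction k with
  | zero =>
    obtain ⟨x0⟩ := ‹Nonempty X›
    refine ⟨{fun _ => x0}, ?_, ?_, by simp⟩
    · intro ξ _
      refine hY.triv hδ ?_
      simp
    · intro ξ hξ ζ hζ hne
      rw [Finset.mem_singleton] at hξ hζ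
      exact absurd (hξ.trans hζ.symm) hne
  | succ k ih =>
    obtain ⟨E₁, h1, h2, h3⟩ := ih
    have hconf : ∀ p ∈ E₁ ×ˢ E, ∀ p' ∈ E₁ ×ˢ E, p ≠ p' →
        pw S ((k + 1) * T) (conc (k * T) p.1 p.2) (conc (k * T) p'.1 p'.2) := by
      intro p hp p' hp' hne
      rw [Finset.mem_product] at hp hp'
      by_cases h : p.1 = p'.1
      · have h4 : p.2 ≠ p'.2 := fun h5 => hne (Prod.ext h h5)
        obtain ⟨t, ht, h5⟩ := hE' _ hp.2 _ hp'.2 h4
        refine ⟨k * T + t, by rw [Nat.succ_mul]; omega, ?_⟩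
        rw [conc_add, conc_add]
        exact h5
      · obtain ⟨t, ht, h5⟩ := h2 _ hp.1 _ hp'.1 h
        refine ⟨t, by rw [Nat.succ_mul]; omega, ?_⟩
        rw [conc_lt _ _ ht, conc_lt _ _ ht]
        exact h5
    refine ⟨(E₁ ×ˢ E).image (fun p => conc (k * T) p.1 p.2), ?_, ?_, ?_⟩
    · intro ξ hξ
      obtain ⟨p, hp, rfl⟩ := Finset.mem_image.1 hξ
      rw [Finset.mem_product] at hp
      have h4 : conc (k * T) p.1 p.2 ∈ Y δ 0 (k * T) :=
        hY.loc (fun t ht => (conc_lt _ _ ht).symm) (h1 _ hp.1)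
      have h5 : (fun t => conc (k * T) p.1 p.2 (k * T + t)) ∈ Y δ 0 T := by
        have : (fun t => conc (k * T) p.1 p.2 (k * T + t)) = p.2 := by
          funext t
          exact conc_add _ _ _
        rw [this]
        exact hE _ hp.2
      have h6 := hY.concat h4 h5
      rw [add_zero, ← Nat.succ_mul] at h6
      exact h6
    · intro ξ hξ ζ hζ hne
      obtain ⟨p, hp, rfl⟩ := Finset.mem_image.1 hξ
      obtain ⟨p', hp', rfl⟩ := Finset.mem_image.1 hζ
      exact hconf p hp p' hp' (fun h => hne (by rw [h]))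
    · rw [Finset.card_image_of_injOn, Finset.card_product, h3, pow_succ]
      intro p hp p' hp' h
      by_contra hne
      have h7 := hconf p hp p' hp' hne
      simp only at h
      rw [h] at h7
      exact not_pw hS _ _ h7

theorem lk_sep {X : Type*} [MetricSpace X] [CompactSpace X] [MeasurableSpace X] [BorelSpace X]
    (hupg : UpgradeStmt X) (hfam : FamTypStmt X)
    (F : X → X) (hFc : Continuous F) (ν : Measure X) [IsProbabilityMeasure ν] (hF : Ergodic F ν)
    (C U : Set (X × X)) (hU : IsOpen U) (hCU : Lk F ν C U) (η : ℝ) (hη : 0 < η) :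
    ∃ N : ℕ, ∀ T ≥ N, ∃ T₀ : ℕ, ∀ T' ≥ T₀, ∀ E : Finset X, E.Nonempty →
      (∀ x ∈ E, ∀ y ∈ E, x ≠ y → Conf F C T x y) → ∃ E' : Finset X, E'.Nonempty ∧
        (∀ x ∈ E', ∀ y ∈ E', x ≠ y → Conf F U T' x y) ∧
        Real.log E.card / T - η ≤ Real.log E'.card / T' := by
  classical
  obtain ⟨-, -, hirr, S, S', -, hS'c, -, -, hCS, hSS', hS'U, pp, hpp, hDom⟩ := hCU
  have hne : Nonempty X := by
    by_contra h
    rw [not_nonempty_iff] at h
    have h1 : ν univ = 1 := measure_univ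
    rw [univ_eq_empty_iff.2 h, measure_empty] at h1
    exact zero_ne_one h1
  have hirr' : ∀ x, (x, x) ∉ S' := fun x hx => hirr x (hS'U hx)
  obtain ⟨ρ, hρ, hρU⟩ := hS'c.isCompact.exists_thickening_subset_open hU hS'U
  obtain ⟨n, hn, P, hPm, hPd, hPn⟩ := exists_label hFc ν hF.toMeasurePreserving hρ
  have hslack : ∀ x y x' y', (x, y) ∈ S' → P x = P x' → P y = P y' → (x', y') ∈ U := by
    intro x y x' y' h hx hy
    apply hρU
    rw [Metric.mem_thickening_iff]
    refine ⟨(x, y), h, ?_⟩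
    rw [Prod.dist_eq, max_lt_iff]
    exact ⟨hPd _ _ hx.symm, hPd _ _ hy.symm⟩
  have hPfr : ∀ i, ν (frontier (P ⁻¹' {i})) = 0 := by
    intro i
    have h1 := hPn 1 (fun _ => i)
    have h2 : {x : X | ∀ s : Fin 1, P (F^[s] x) = i} = P ⁻¹' {i} := by
      ext x
      simp
    rwa [h2] at h1
  obtain ⟨l, hl⟩ := exists_lt_of_ciInf_lt (show hInf ν F P < hInf ν F P + (η / 2) / 4 by linarith)
  obtain ⟨δ, hδ, hup⟩ := hupg ν F hF P hPm S' U hslack hirr (l + 1) (Nat.succ_pos l) (η / 2)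
    (by linarith) (by push_cast; exact hl.le)
  obtain ⟨T₀, hT₀⟩ := hDom n P hPm hPfr (l + 1) (Nat.succ_pos l) δ hδ
  have hfam' : Fam (Typ P (l + 1) (law ν F P (l + 1))) :=
    hfam P (l + 1) _ (law_nonneg ν F P (l + 1)) (sum_law ν hFc.measurable hPm (l + 1))
  refine ⟨max T₀ 1, ?_⟩
  intro T hT
  have hTT₀ : T₀ ≤ T := (le_max_left _ _).trans hT
  have hT1 : 1 ≤ T := (le_max_right _ _).trans hT
  have hTpos : (0 : ℝ) < T := by exact_mod_cast hT1
  obtain ⟨T₁, hT₁⟩ := hup (T : ℝ) (fun _ => univ) (fun _ => MeasurableSet.univ) (by simp)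
  have hlogn : 0 ≤ Real.log n := Real.log_natCast_nonneg n
  refine ⟨max T₁ (⌈2 * (T * Real.log n) / η⌉₊ + 1), ?_⟩
  intro T' hT' E hEne hE
  have hT'1 : T₁ ≤ T' := (le_max_left _ _).trans hT'
  have hT'2 : ⌈2 * (T * Real.log n) / η⌉₊ + 1 ≤ T' := (le_max_right _ _).trans hT'
  have hT'pos : (0 : ℝ) < T' := by
    have : 1 ≤ T' := by omega
    exact_mod_cast this
  have hT'3 : T * Real.log n ≤ η / 2 * T' := by
    have h1 : 2 * (T * Real.log n) / η ≤ T' := by
      refine (Nat.le_ceil _).trans ?_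
      exact_mod_cast (Nat.le_succ _).trans hT'2
    rw [div_le_iff₀ hη] at h1
    linarith
  -- the cardinality of `E`
  have hEcard : (E.card : ℝ) ≤ (n : ℝ) ^ T := by
    have hinj : Set.InjOn (fun x : X => fun t : Fin T => P (F^[t] x)) E := by
      intro x hx y hy hxy
      by_contra hne2
      obtain ⟨t, ht, h⟩ := hE x hx y hy hne2
      have h1 := congrFun hxy ⟨t, ht⟩
      simp only at h1
      exact hirr _ (hslack _ _ (F^[t] y) (F^[t] y) (hSS' (hCS h)) h1 rfl)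
    have h1 := Finset.card_le_card_of_injOn (s := E) (t := (Finset.univ : Finset (Fin T → Fin n)))
      (fun x : X => fun t : Fin T => P (F^[t] x)) (fun _ _ => Finset.mem_coe.2 (Finset.mem_univ _)) hinj
    rw [Finset.card_univ, Fintype.card_fun, Fintype.card_fin, Fintype.card_fin] at h1
    exact_mod_cast h1
  obtain ⟨E₁, hE₁, hE₁', hcard⟩ := (hT₀ T hTT₀).plain E (fun _ _ => mem_univ _) (by
    intro x hx y hy hxy
    obtain ⟨t, ht, h⟩ := hE x hx y hy hxy
    exact ⟨t, ht, hCS h⟩)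
  have hcard' : (E.card : ℝ) ≤ E₁.card := by
    refine hcard.trans ?_
    have : Real.exp (-(pp * T)) ≤ 1 := by
      rw [Real.exp_le_one_iff]
      have := mul_pos hpp hTpos
      linarith
    exact mul_le_of_le_one_left (by positivity) this
  have hEpos : (1 : ℝ) ≤ E.card := by exact_mod_cast hEne.card_pos
  obtain ⟨E₂, hE₂, hE₂', hcard₂⟩ := exists_power hfam' S' hirr' hδ.le T E₁ hE₁ hE₁' (T' / T)
  have hkT : T' / T * T ≤ T' := Nat.div_mul_le_self T' T
  have hkT2 : T' < T' / T * T + T := Nat.lt_div_mul_add hT1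
  obtain ⟨E', hE'1, hE'2, hcard₃⟩ := (hT₁ T' hT'1).plain E₂ (by
    intro ξ hξ
    have h1 := hE₂ ξ hξ
    have h2 : (fun t => ξ (T' / T * T + t)) ∈
        Typ P (l + 1) (law ν F P (l + 1)) δ T (T' - T' / T * T) := by
      refine hfam'.triv hδ.le ?_
      have : T' - T' / T * T ≤ T := by omega
      exact_mod_cast this
    have h3 := hfam'.concat h1 h2
    rw [zero_add, Nat.add_sub_cancel' hkT] at h3
    exact h3) (by
    intro ξ hξ ζ hζ hne2
    obtain ⟨t, ht, h⟩ := hE₂' ξ hξ ζ hζ hne2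
    exact ⟨t, ht.trans_le hkT, h⟩)
  have hE₁pos : (1 : ℝ) ≤ E₁.card := hEpos.trans hcard'
  have hE₂pos : (1 : ℝ) ≤ E₂.card := by
    rw [hcard₂]
    push_cast
    exact one_le_pow₀ hE₁pos
  have hE'pos : (0 : ℝ) < E'.card := by
    by_contra h
    have h0 : (E'.card : ℝ) = 0 := le_antisymm (not_lt.1 h) (by positivity)
    rw [h0, mul_zero] at hcard₃
    linarith
  refine ⟨E', Finset.card_pos.1 (by exact_mod_cast hE'pos), hE'2, ?_⟩
  have hlog1 : ((T' / T : ℕ) : ℝ) * Real.log E.card ≤ η / 2 * T' + Real.log E'.card := by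
    have h1 : Real.log E.card ≤ Real.log E₁.card := Real.log_le_log (by linarith) hcard'
    have h2 : Real.log E₂.card ≤ Real.log (Real.exp (η / 2 * T') * E'.card) :=
      Real.log_le_log (by linarith) hcard₃
    rw [Real.log_mul (Real.exp_pos _).ne' hE'pos.ne', Real.log_exp, hcard₂] at h2
    push_cast at h2
    rw [Real.log_pow] at h2
    refine le_trans ?_ h2
    exact mul_le_mul_of_nonneg_left h1 (by positivity)
  have hlogE : Real.log E.card ≤ T * Real.log n := by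
    have h1 := Real.log_le_log (by linarith) hEcard
    rwa [Real.log_pow] at h1
  have hlogE0 : 0 ≤ Real.log E.card := Real.log_nonneg hEpos
  rw [le_div_iff₀ hT'pos, sub_mul]
  have h4 : Real.log E.card / T * T' ≤ Real.log E.card * (((T' / T : ℕ) : ℝ) + 1) := by
    rw [div_mul_eq_mul_div, div_le_iff₀ hTpos, mul_assoc]
    refine mul_le_mul_of_nonneg_left ?_ hlogE0
    have : T' ≤ (T' / T + 1) * T := by rw [Nat.succ_mul]; omega
    exact_mod_cast this
  nlinarith [h4, hlog1, hlogE, hT'3]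

end Pool.Agent.Helper27.Weiss
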